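import Pool.Agent.Q231.LMD.Stubs

/-!
# Project LMD, task A3i: a local metric generator gives a hitting set
-/

set_option autoImplicit false

namespace Pool.Agent.Q182.LMD

open Pool.Agent.Q231.LMD Pool.Agent.H49R2.PC

theorem special_mem {E : List Sp} {e : Sp} (he : e ∈ E) :
    (6 * e.1 + 1, 6 * e.1 + 2) ∈ (gE E).2 := by
  unfold gE
  refine List.mem_append_left _ ?_
  rw [List.mem_flatMap]
  exact ⟨e, he, List.mem_cons_self⟩

theorem priv_mem {E : List Sp} {k : ℕ} (hk : k ∈ hubV E) :
    (6 * k + 4, 6 * k + 5) ∈ (gE E).2 := by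
  unfold gE
  refine List.mem_append_right _ ?_
  rw [List.mem_flatMap]
  exact ⟨k, hk, by simp⟩

theorem exists_sel {E : List Sp} (hE : GoodE E) : ∃ g : ℕ → ℕ, ∀ e ∈ E, g e.1 ∈ att e := by
  classical
  have key : ∀ i : ℕ, ∃ u : ℕ, ∀ e ∈ E, e.1 = i → u ∈ att e := by
    intro i
    by_cases h : ∃ e ∈ E, e.1 = i
    · obtain ⟨e, he, hi⟩ := h
      obtain ⟨u, hu⟩ := List.exists_mem_of_ne_nil _ (hE.att_ne e he)
      refine ⟨u, fun e' he' hi' => ?_⟩
      have : e' = e := List.inj_on_of_nodup_map hE.nodup he' he (by rw [hi, hi'])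
      rw [this]
      exact hu
    · exact ⟨0, fun e he hi => absurd ⟨e, he, hi⟩ h⟩
  choose g hg using key
  exact ⟨g, fun e he => hg e.1 e he rfl⟩

theorem A3i_ok : S_A3i := by
  intro hA hB E W hE hW
  classical
  obtain ⟨g, hg⟩ := exists_sel hE
  obtain ⟨_, hW2⟩ := hW
  set W' := W.filter (fun w => w % 6 < 3) with hW'
  set W'' := W.filter (fun w => ¬ w % 6 < 3) with hW''
  have hcard : W'.card + W''.card = W.card := by
    rw [hW', hW'']
    exact Finset.card_filter_add_card_filter_not _
  have hhub : (hubV E).length ≤ W''.card := by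
    have hnd : (hubV E).Nodup := by
      unfold hubV
      exact List.nodup_dedup _
    have h1 : (hubV E).toFinset ⊆ W''.image (fun w => w / 6) := by
      intro k hk
      rw [List.mem_toFinset] at hk
      obtain ⟨w, hw, hne⟩ := hW2 _ (priv_mem hk)
      rw [Finset.mem_image]
      by_cases h4 : w = 6 * k + 4
      · refine ⟨w, ?_, by omega⟩
        rw [hW'', Finset.mem_filter]
        exact ⟨hw, by omega⟩
      · by_cases h5 : w = 6 * k + 5
        · refine ⟨w, ?_, by omega⟩
          rw [hW'', Finset.mem_filter]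
          exact ⟨hw, by omega⟩
        · exact absurd (hA E k w hk h4 h5) hne
    calc (hubV E).length = (hubV E).toFinset.card := (List.toFinset_card_of_nodup hnd).symm
      _ ≤ (W''.image (fun w => w / 6)).card := Finset.card_le_card h1
      _ ≤ W''.card := Finset.card_image_le
  refine ⟨W'.image (fun w => if w % 6 = 0 then w / 6 else g (w / 6)), ?_, ?_⟩
  · intro e he
    obtain ⟨w, hw, hne⟩ := hW2 _ (special_mem he)
    by_cases h1 : w = 6 * e.1 + 1
    · refine ⟨g e.1, hg e he, ?_⟩
      rw [Finset.mem_image]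
      refine ⟨w, ?_, ?_⟩
      · rw [hW', Finset.mem_filter]
        exact ⟨hw, by omega⟩
      · have a1 : w % 6 ≠ 0 := by omega
        have a2 : w / 6 = e.1 := by omega
        rw [if_neg a1, a2]
    · by_cases h2 : w = 6 * e.1 + 2
      · refine ⟨g e.1, hg e he, ?_⟩
        rw [Finset.mem_image]
        refine ⟨w, ?_, ?_⟩
        · rw [hW', Finset.mem_filter]
          exact ⟨hw, by omega⟩
        · have a1 : w % 6 ≠ 0 := by omega
          have a2 : w / 6 = e.1 := by omega
          rw [if_neg a1, a2]
      · by_cases h3 : ∀ u ∈ att e, w ≠ 6 * u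
        · exact absurd (hB E hE e he w h1 h2 h3) hne
        · push Not at h3
          obtain ⟨u, hu, hwu⟩ := h3
          refine ⟨u, hu, ?_⟩
          rw [Finset.mem_image]
          refine ⟨w, ?_, ?_⟩
          · rw [hW', Finset.mem_filter]
            exact ⟨hw, by omega⟩
          · have a1 : w % 6 = 0 := by omega
            have a2 : w / 6 = u := by omega
            rw [if_pos a1, a2]
  · have h2 : (W'.image (fun w => if w % 6 = 0 then w / 6 else g (w / 6))).card ≤ W'.card :=
      Finset.card_image_le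
    omega

end Pool.Agent.Q182.LMD
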