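import Pool.Agent.Q231.LMD.Stubs

/-!
# Project LMD, task G1: the list of positions and kinds
-/

set_option autoImplicit false

namespace Pool.Agent.Q182.LMD

open Pool.Agent.Q231.LMD Pool.Agent.H49R2.PC

theorem pw_disj {α β : Type*} {l : List α} {f : α → List β} (hl : l.Nodup)
    (h : ∀ a ∈ l, ∀ b ∈ l, ∀ x ∈ f a, x ∈ f b → a = b) :
    l.Pairwise (Function.onFun List.Disjoint f) := by
  refine List.Nodup.pairwise_of_forall_ne hl ?_
  intro a ha b hb hab x hx hx'
  exact hab (h a ha b hb x hx hx')

theorem mem_pairIdx {L : List Pt} {s : Pt} {x : Pt × ℕ} (h : x ∈ pairIdx L s) :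
    (x = (s, 12)) ∨ (x = (s, 13)) ∨ (x = ((s.1 - 1, s.2), 14)) := by
  unfold pairIdx at h
  simp only [List.mem_append] at h
  rcases h with h | h | h
  · split_ifs at h
    · simp at h; exact Or.inl h
    · simp at h
  · split_ifs at h
    · simp at h; exact Or.inr (Or.inl h)
    · simp at h
  · split_ifs at h
    · simp at h; exact Or.inr (Or.inr h)
    · simp at h

theorem nodup_pairIdx (L : List Pt) (s : Pt) : (pairIdx L s).Nodup := by
  unfold pairIdx
  split_ifs <;> simp

theorem G1_ok : S_G1 := by
  intro L K hG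
  have h1 : (L.flatMap (fun s => (List.range 12).map (fun j => (s, j)))).Nodup := by
    rw [List.nodup_flatMap]
    refine ⟨fun s _ => ?_, pw_disj hG.nodupL ?_⟩
    · exact List.Nodup.map (fun a b hab => (Prod.mk.inj hab).2) List.nodup_range
    · intro a _ b _ x hx hx'
      simp only [List.mem_map] at hx hx'
      obtain ⟨j, _, rfl⟩ := hx
      obtain ⟨j', _, hj'⟩ := hx'
      exact ((Prod.mk.inj hj').1).symm
  have h2 : (L.flatMap (pairIdx L)).Nodup := by
    rw [List.nodup_flatMap]
    refine ⟨fun s _ => nodup_pairIdx L s, pw_disj hG.nodupL ?_⟩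
    intro a ha b hb x hx hx'
    have pa := (hG.pos a ha).1
    have pb := (hG.pos b hb).1
    obtain ⟨a1, a2⟩ := a
    obtain ⟨b1, b2⟩ := b
    simp only at pa pb
    rcases mem_pairIdx hx with h | h | h <;> rcases mem_pairIdx hx' with h' | h' | h' <;>
      rw [h] at h' <;> simp only [Prod.mk.injEq] at h' <;> ext <;> simp <;> omega
  have h3 : (K.flatMap (fun t => (List.range 6).map (fun k => (t.1, 15 + 6 * t.2 + k)))).Nodup := by
    rw [List.nodup_flatMap]
    refine ⟨fun s _ => ?_, pw_disj hG.nodupK ?_⟩
    · exact List.Nodup.map (fun a b hab => by have := (Prod.mk.inj hab).2; omega) List.nodup_range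
    · intro a _ b _ x hx hx'
      simp only [List.mem_map, List.mem_range] at hx hx'
      obtain ⟨j, hj, rfl⟩ := hx
      obtain ⟨j', hj', hh⟩ := hx'
      have e1 := (Prod.mk.inj hh).1
      have e2 := (Prod.mk.inj hh).2
      exact Prod.ext e1.symm (by omega)
  have m1 : ∀ x ∈ L.flatMap (fun s => (List.range 12).map (fun j => (s, j))), x.2 < 12 := by
    intro x hx
    simp only [List.mem_flatMap, List.mem_map, List.mem_range] at hx
    obtain ⟨s, _, j, hj, rfl⟩ := hx
    exact hj
  have m2 : ∀ x ∈ L.flatMap (pairIdx L), 12 ≤ x.2 ∧ x.2 < 15 := by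
    intro x hx
    rw [List.mem_flatMap] at hx
    obtain ⟨s, _, hx⟩ := hx
    rcases mem_pairIdx hx with h | h | h <;> rw [h] <;> constructor <;> norm_num
  have m3 : ∀ x ∈ K.flatMap (fun t => (List.range 6).map (fun k => (t.1, 15 + 6 * t.2 + k))),
      15 ≤ x.2 ∧ x.2 < 27 := by
    intro x hx
    simp only [List.mem_flatMap, List.mem_map, List.mem_range] at hx
    obtain ⟨t, ht, k, hk, rfl⟩ := hx
    have := hG.kind t ht
    constructor <;> simp only <;> omega
  constructor
  · unfold idx
    rw [List.nodup_append', List.nodup_append']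
    refine ⟨h1, ⟨h2, h3, ?_⟩, ?_⟩
    · intro x hx hx'
      have := m2 x hx
      have := m3 x hx'
      omega
    · intro x hx hx'
      have := m1 x hx
      rw [List.mem_append] at hx'
      rcases hx' with hx' | hx'
      · have := m2 x hx'
        omega
      · have := m3 x hx'
        omega
  · intro x hx
    unfold idx at hx
    rw [List.mem_append, List.mem_append] at hx
    rcases hx with hx | hx | hx
    · have := m1 x hx; omega
    · have := m2 x hx; omega
    · exact (m3 x hx).2

end Pool.Agent.Q182.LMD
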